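import Mathlib

/-!
# The density of connected sets under minimum degree three

For a finite connected graph `G` in which every vertex has at least three neighbours, the density
of connected sets satisfies `D(G) ≤ 63 / 64`.

Idea of the proof: such a graph has a connected dominating set `K` such that at least
`(n + 5) / 4` vertices lie outside `K` (this is the argument of Kleitman and West for spanning
trees with many leaves). Every set containing `K` is connected, so there are at least
`2 ^ ((n + 5) / 4)` connected sets. On the other hand at most `2 ^ (n / 4)` sets of vertices have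
more than `31 n / 32` elements.
-/

set_option autoImplicit false

universe u

namespace Pool.Agent.Results.MP_345bc6_co.DensityBound

open Finset
open scoped Classical

/-- The connected sets of `G`: the nonempty sets `U` of vertices such that the subgraph of `G`
induced on `U` is connected. -/
noncomputable def connectedSets {V : Type u} [Fintype V] (G : SimpleGraph V) :
    Finset (Finset V) :=
  univ.filter fun U => U.Nonempty ∧ (G.induce (U : Set V)).Connected

/-- The density `D(G)` of connected sets: the mean number of elements of a connected set, divided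
by the number of vertices. -/
noncomputable def density {V : Type u} [Fintype V] (G : SimpleGraph V) : ℝ :=
  (∑ U ∈ connectedSets G, (U.card : ℝ)) / ((connectedSets G).card : ℝ) / (Fintype.card V : ℝ)

section Grow

variable {V : Type u} [Fintype V] (G : SimpleGraph V)

/-- The neighbours of `K` outside `K`. -/
noncomputable def Nb (K : Finset V) : Finset V :=
  univ.filter fun v => v ∉ K ∧ ∃ k ∈ K, G.Adj k v

/-- The closed neighbourhood of `K`. -/
noncomputable def Cl (K : Finset V) : Finset V := K ∪ Nb G K

/-- The neighbours of `K` outside `K` all of whose neighbours are in the closed neighbourhood. -/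
noncomputable def Dd (K : Finset V) : Finset V :=
  (Nb G K).filter fun v => ∀ w, G.Adj v w → w ∈ Cl G K

/-- The neighbours of `x` outside the closed neighbourhood of `K`. -/
noncomputable def Ou (K : Finset V) (x : V) : Finset V :=
  univ.filter fun w => G.Adj x w ∧ w ∉ Cl G K

variable {G}

theorem mem_Nb {K : Finset V} {v : V} : v ∈ Nb G K ↔ v ∉ K ∧ ∃ k ∈ K, G.Adj k v := by
  simp [Nb]

theorem mem_Cl {K : Finset V} {v : V} : v ∈ Cl G K ↔ v ∈ K ∨ ∃ k ∈ K, G.Adj k v := by
  rw [Cl, mem_union, mem_Nb]
  by_cases h : v ∈ K <;> simp [h]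

theorem mem_Ou {K : Finset V} {x w : V} : w ∈ Ou G K x ↔ G.Adj x w ∧ w ∉ Cl G K := by
  simp [Ou]

theorem mem_Dd {K : Finset V} {v : V} : v ∈ Dd G K ↔ v ∈ Nb G K ∧ ∀ w, G.Adj v w → w ∈ Cl G K := by
  simp [Dd]

theorem card_Cl (K : Finset V) : (Cl G K).card = K.card + (Nb G K).card := by
  rw [Cl, card_union_of_disjoint]
  rw [disjoint_left]
  intro v hv hv'
  exact (mem_Nb.1 hv').1 hv

theorem Cl_insert {K : Finset V} {x : V} (hx : x ∈ Nb G K) :
    Cl G (insert x K) = Cl G K ∪ Ou G K x := by
  ext w
  rw [mem_union, mem_Ou, mem_Cl, mem_Cl]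
  rw [mem_Nb] at hx
  obtain ⟨hx, k, hk, hkx⟩ := hx
  constructor
  · rintro (h | ⟨l, hl, h⟩)
    · rw [mem_insert] at h
      rcases h with rfl | h
      · exact Or.inl (Or.inr ⟨k, hk, hkx⟩)
      · exact Or.inl (Or.inl h)
    · rw [mem_insert] at hl
      rcases hl with rfl | hl
      · by_cases hw : w ∈ K ∨ ∃ k ∈ K, G.Adj k w
        · exact Or.inl hw
        · exact Or.inr ⟨h, hw⟩
      · exact Or.inl (Or.inr ⟨l, hl, h⟩)
  · rintro ((h | ⟨l, hl, h⟩) | ⟨h, -⟩)
    · exact Or.inl (mem_insert_of_mem h)
    · exact Or.inr ⟨l, mem_insert_of_mem hl, h⟩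
    · exact Or.inr ⟨x, mem_insert_self _ _, h⟩

theorem card_Cl_insert {K : Finset V} {x : V} (hx : x ∈ Nb G K) :
    (Cl G (insert x K)).card = (Cl G K).card + (Ou G K x).card := by
  rw [Cl_insert hx, card_union_of_disjoint]
  rw [disjoint_left]
  intro v hv hv'
  exact (mem_Ou.1 hv').2 hv

theorem card_Nb_insert {K : Finset V} {x : V} (hx : x ∈ Nb G K) :
    (Nb G (insert x K)).card + 1 = (Nb G K).card + (Ou G K x).card := by
  have h1 := card_Cl_insert hx
  rw [card_Cl, card_Cl, card_insert_of_notMem (mem_Nb.1 hx).1] at h1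
  omega

theorem Dd_insert {K : Finset V} {x : V} (hx : x ∈ Nb G K) (hx' : x ∉ Dd G K) :
    Dd G K ⊆ Dd G (insert x K) := by
  intro v hv
  have hvx : v ≠ x := fun h => hx' (h ▸ hv)
  rw [mem_Dd] at hv ⊢
  obtain ⟨hv, hv'⟩ := hv
  rw [mem_Nb] at hv
  refine ⟨?_, ?_⟩
  · rw [mem_Nb]
    obtain ⟨h1, k, hk, h2⟩ := hv
    refine ⟨?_, k, mem_insert_of_mem hk, h2⟩
    rw [mem_insert]
    rintro (h | h)
    · exact hvx h
    · exact h1 h
  · intro w hw
    rw [Cl_insert hx]
    exact mem_union_left _ (hv' w hw)

theorem insert_connected {K : Finset V} (hK : (G.induce (K : Set V)).Connected) {x : V}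
    (hx : x ∈ Cl G K) : (G.induce ((insert x K : Finset V) : Set V)).Connected := by
  rw [mem_Cl] at hx
  rcases hx with hx | ⟨k, hk, hkx⟩
  · rw [insert_eq_of_mem hx]
    exact hK
  · have h1 : (G.induce ({x} : Set V)).Preconnected := by
      rintro ⟨a, ha⟩ ⟨b, hb⟩
      have ha' : a = x := ha
      have hb' : b = x := hb
      subst ha'
      subst hb'
      exact SimpleGraph.Reachable.refl _
    have h2 := SimpleGraph.connected_induce_union hK.preconnected h1
      (Finset.mem_coe.2 hk) (Set.mem_singleton x) hkx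
    have h3 : ((insert x K : Finset V) : Set V) = (K : Set V) ∪ {x} := by
      rw [coe_insert, Set.insert_eq, Set.union_comm]
    rw [h3]
    exact h2

/-- One step of the construction. -/
theorem step (hG : G.Connected) (hdeg : ∀ v, 3 ≤ (G.neighborFinset v).card) (K : Finset V)
    (hKne : K.Nonempty) (hK : (G.induce (K : Set V)).Connected)
    (hpot : (Cl G K).card + 5 ≤ 3 * (Nb G K).card + (Dd G K).card) (hcl : Cl G K ≠ univ) :
    ∃ K' : Finset V, K'.Nonempty ∧ (G.induce (K' : Set V)).Connected ∧
      (Cl G K).card < (Cl G K').card ∧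
      (Cl G K').card + 5 ≤ 3 * (Nb G K').card + (Dd G K').card := by
  -- a leaf with a neighbour outside
  obtain ⟨u0, x0, hu0, hx0⟩ : ∃ u x, u ∈ Nb G K ∧ x ∈ Ou G K u := by
    obtain ⟨k, hk⟩ := hKne
    obtain ⟨z, hz⟩ : ∃ z, z ∉ Cl G K := by
      by_contra h
      push Not at h
      exact hcl (eq_univ_iff_forall.2 h)
    obtain ⟨p⟩ := hG.preconnected k z
    obtain ⟨d, -, hd1, hd2⟩ := p.exists_boundary_dart (Cl G K : Set V)
      (mem_coe.2 (mem_Cl.2 (Or.inl hk))) (fun h => hz (mem_coe.1 h))
    have hd1' : d.fst ∈ Cl G K := hd1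
    have hd2' : d.snd ∉ Cl G K := hd2
    refine ⟨d.fst, d.snd, ?_, mem_Ou.2 ⟨d.adj, hd2'⟩⟩
    rw [Cl, mem_union] at hd1'
    rcases hd1' with h | h
    · exact absurd (mem_Cl.2 (Or.inr ⟨_, h, d.adj⟩)) hd2'
    · exact h
  have notDd : ∀ u x, x ∈ Ou G K u → u ∉ Dd G K := by
    intro u x hx hu
    rw [mem_Ou] at hx
    exact hx.2 ((mem_Dd.1 hu).2 x hx.1)
  by_cases hbig : ∃ u ∈ Nb G K, 2 ≤ (Ou G K u).card
  · obtain ⟨u, hu, h2⟩ := hbig
    refine ⟨insert u K, insert_nonempty _ _, insert_connected hK (mem_union_right _ hu), ?_, ?_⟩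
    · rw [card_Cl_insert hu]
      omega
    · have h1 := card_Nb_insert hu
      obtain ⟨x, hx⟩ := card_pos.1 (lt_of_lt_of_le (by norm_num) h2)
      have h3 := card_le_card (Dd_insert hu (notDd u x hx))
      rw [card_Cl_insert hu]
      omega
  · push Not at hbig
    have hOu : ∀ u ∈ Nb G K, ∀ x ∈ Ou G K u, Ou G K u = {x} := by
      intro u hu x hx
      have h1 := hbig u hu
      have h2 : 0 < (Ou G K u).card := card_pos.2 ⟨x, hx⟩
      obtain ⟨a, ha⟩ := card_eq_one.1 (show (Ou G K u).card = 1 by omega)
      rw [ha] at hx ⊢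
      rw [mem_singleton.1 hx]
    have hu1 : (Ou G K u0).card = 1 := by rw [hOu u0 hu0 x0 hx0, card_singleton]
    have hx0Cl : x0 ∉ Cl G K := (mem_Ou.1 hx0).2
    have hCl' : Cl G (insert u0 K) = insert x0 (Cl G K) := by
      rw [Cl_insert hu0, hOu u0 hu0 x0 hx0, union_comm]
      rfl
    have hc1 := card_Cl_insert hu0
    have hn1 := card_Nb_insert hu0
    have hd1 := card_le_card (Dd_insert hu0 (notDd u0 x0 hx0))
    have hconn1 := insert_connected hK (x := u0) (mem_union_right _ hu0)
    by_cases hx2 : 2 ≤ (Ou G K x0).card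
    · -- add both `u0` and `x0`
      have hx0Nb : x0 ∈ Nb G (insert u0 K) := by
        rw [mem_Nb]
        refine ⟨?_, u0, mem_insert_self _ _, (mem_Ou.1 hx0).1⟩
        intro h
        rw [mem_insert] at h
        rcases h with h | h
        · exact hx0Cl (h ▸ mem_union_right _ hu0)
        · exact hx0Cl (mem_union_left _ h)
      have hOu' : Ou G (insert u0 K) x0 = Ou G K x0 := by
        ext w
        rw [mem_Ou, mem_Ou, hCl', mem_insert]
        constructor
        · rintro ⟨h1, h2⟩
          exact ⟨h1, fun h => h2 (Or.inr h)⟩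
        · rintro ⟨h1, h2⟩
          refine ⟨h1, ?_⟩
          rintro (h | h)
          · exact G.ne_of_adj h1 h.symm
          · exact h2 h
      have hx0Dd : x0 ∉ Dd G (insert u0 K) := by
        intro h
        obtain ⟨w, hw⟩ := card_pos.1 (lt_of_lt_of_le (by norm_num) hx2)
        rw [← hOu', mem_Ou] at hw
        exact hw.2 ((mem_Dd.1 h).2 w hw.1)
      have hc2 := card_Cl_insert hx0Nb
      have hn2 := card_Nb_insert hx0Nb
      have hd2 := card_le_card (Dd_insert hx0Nb hx0Dd)
      rw [hOu'] at hc2 hn2
      refine ⟨insert x0 (insert u0 K), insert_nonempty _ _,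
        insert_connected hconn1 (mem_union_right _ hx0Nb), ?_, ?_⟩
      · omega
      · omega
    · -- `x0` has a second neighbour among the leaves
      push Not at hx2
      have hsplit : (G.neighborFinset x0).card =
          ((G.neighborFinset x0).filter (fun w => w ∈ Cl G K)).card + (Ou G K x0).card := by
        have h1 := card_filter_add_card_filter_not (s := G.neighborFinset x0)
          (fun w => w ∈ Cl G K)
        have h2 : (G.neighborFinset x0).filter (fun w => ¬ w ∈ Cl G K) = Ou G K x0 := by
          ext w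
          rw [mem_filter, SimpleGraph.mem_neighborFinset, mem_Ou]
        rw [h2] at h1
        exact h1.symm
      have h3 := hdeg x0
      have h4 : 1 < ((G.neighborFinset x0).filter (fun w => w ∈ Cl G K)).card := by omega
      obtain ⟨u1, hu1', hne⟩ := exists_mem_ne h4 u0
      rw [mem_filter, SimpleGraph.mem_neighborFinset] at hu1'
      obtain ⟨hadj, hu1Cl⟩ := hu1'
      have hu1Nb : u1 ∈ Nb G K := by
        rw [Cl, mem_union] at hu1Cl
        rcases hu1Cl with h | h
        · exact absurd (mem_Cl.2 (Or.inr ⟨_, h, hadj.symm⟩)) hx0Cl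
        · exact h
      have hx0u1 : x0 ∈ Ou G K u1 := mem_Ou.2 ⟨hadj.symm, hx0Cl⟩
      have hu1not : u1 ∉ Dd G K := notDd u1 x0 hx0u1
      have hu1in : u1 ∈ Dd G (insert u0 K) := by
        rw [mem_Dd]
        refine ⟨?_, ?_⟩
        · rw [mem_Nb] at hu1Nb ⊢
          obtain ⟨h1, k, hk, h2⟩ := hu1Nb
          refine ⟨?_, k, mem_insert_of_mem hk, h2⟩
          rw [mem_insert]
          rintro (h | h)
          · exact hne h
          · exact h1 h
        · intro w hw
          rw [hCl', mem_insert]
          by_cases hwC : w ∈ Cl G K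
          · exact Or.inr hwC
          · left
            have h5 : w ∈ Ou G K u1 := mem_Ou.2 ⟨hw, hwC⟩
            rw [hOu u1 hu1Nb x0 hx0u1] at h5
            exact mem_singleton.1 h5
      have h6 : (insert u1 (Dd G K)).card ≤ (Dd G (insert u0 K)).card := by
        apply card_le_card
        intro v hv
        rw [mem_insert] at hv
        rcases hv with rfl | hv
        · exact hu1in
        · exact Dd_insert hu0 (notDd u0 x0 hx0) hv
      rw [card_insert_of_notMem hu1not] at h6
      refine ⟨insert u0 K, insert_nonempty _ _, hconn1, ?_, ?_⟩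
      · omega
      · omega

/-- A connected dominating set with at least `(n + 5) / 4` vertices outside. -/
theorem exists_dominating (hG : G.Connected) (hdeg : ∀ v, 3 ≤ (G.neighborFinset v).card) :
    ∃ K : Finset V, K.Nonempty ∧ (G.induce (K : Set V)).Connected ∧ Cl G K = univ ∧
      Fintype.card V + 5 ≤ 4 * (Nb G K).card := by
  have main : ∀ m : ℕ, ∀ K : Finset V, Fintype.card V - (Cl G K).card = m → K.Nonempty →
      (G.induce (K : Set V)).Connected →
      (Cl G K).card + 5 ≤ 3 * (Nb G K).card + (Dd G K).card →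
      ∃ K : Finset V, K.Nonempty ∧ (G.induce (K : Set V)).Connected ∧ Cl G K = univ ∧
        (Cl G K).card + 5 ≤ 3 * (Nb G K).card + (Dd G K).card := by
    intro m
    induction m using Nat.strong_induction_on with
    | _ m ih =>
      intro K hm hne hK hpot
      by_cases hcl : Cl G K = univ
      · exact ⟨K, hne, hK, hcl, hpot⟩
      · obtain ⟨K', h1, h2, h3, h4⟩ := step hG hdeg K hne hK hpot hcl
        have h5 : (Cl G K').card ≤ Fintype.card V := card_le_univ _
        exact ih (Fintype.card V - (Cl G K').card) (by omega) K' rfl h1 h2 h4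
  obtain ⟨v⟩ := hG.nonempty
  have hsing : (G.induce (({v} : Finset V) : Set V)).Connected := by
    rw [coe_singleton]
    have : Nonempty ({v} : Set V) := ⟨⟨v, rfl⟩⟩
    refine ⟨?_⟩
    rintro ⟨a, ha⟩ ⟨b, hb⟩
    have ha' : a = v := ha
    have hb' : b = v := hb
    subst ha'
    subst hb'
    exact SimpleGraph.Reachable.refl _
  have hNb : Nb G {v} = G.neighborFinset v := by
    ext w
    rw [mem_Nb, SimpleGraph.mem_neighborFinset]
    constructor
    · rintro ⟨-, k, hk, h⟩
      rw [mem_singleton] at hk
      exact hk ▸ h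
    · intro h
      exact ⟨fun h' => G.ne_of_adj h (mem_singleton.1 h').symm, v, mem_singleton_self v, h⟩
  have h0 := hdeg v
  obtain ⟨K, h1, h2, h3, h4⟩ := main _ {v} rfl (singleton_nonempty v) hsing (by
    rw [card_Cl, hNb, card_singleton]
    omega)
  refine ⟨K, h1, h2, h3, ?_⟩
  have h5 : (Dd G K).card ≤ (Nb G K).card := card_le_card (filter_subset _ _)
  rw [h3, card_univ] at h4
  omega

/-- Every set containing a connected dominating set is connected. -/
theorem superset_connected {K : Finset V}
    (hK : (G.induce (K : Set V)).Connected) (hcl : Cl G K = univ) (U : Finset V) (hU : K ⊆ U) :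
    (G.induce (U : Set V)).Connected := by
  have main : ∀ A : Finset V, (G.induce ((A ∪ K : Finset V) : Set V)).Connected := by
    intro A
    induction A using Finset.induction_on with
    | empty => rw [empty_union]; exact hK
    | insert x A _ ih =>
      rw [insert_union]
      apply insert_connected ih
      have hx : x ∈ Cl G K := by rw [hcl]; exact mem_univ _
      rw [mem_Cl] at hx ⊢
      rcases hx with hx | ⟨k, hk, hx⟩
      · exact Or.inl (mem_union_right _ hx)
      · exact Or.inr ⟨k, mem_union_right _ hk, hx⟩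
  have h := main U
  rwa [union_eq_left.2 hU] at h

/-- There are at least `2 ^ ((n + 5) / 4)` connected sets. -/
theorem card_connectedSets (hG : G.Connected) (hdeg : ∀ v, 3 ≤ (G.neighborFinset v).card) :
    ∃ l : ℕ, Fintype.card V + 5 ≤ 4 * l ∧ 2 ^ l ≤ (connectedSets G).card := by
  obtain ⟨K, hne, hK, hcl, hcard⟩ := exists_dominating hG hdeg
  refine ⟨(Nb G K).card, hcard, ?_⟩
  rw [← card_powerset]
  apply card_le_card_of_injOn (fun A => A ∪ K)
  · intro A _
    rw [mem_coe, connectedSets, mem_filter]
    refine ⟨mem_univ _, ?_, superset_connected hK hcl _ subset_union_right⟩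
    exact hne.mono subset_union_right
  · intro A hA B hB hAB
    have hdisj : ∀ C ∈ (Nb G K).powerset, (C ∪ K) \ K = C := by
      intro C hC
      rw [union_sdiff_right]
      apply sdiff_eq_self_of_disjoint
      rw [disjoint_left]
      intro v hv hv'
      exact (mem_Nb.1 (mem_powerset.1 hC hv)).1 hv'
    have h1 := hdisj A (mem_coe.1 hA)
    have h2 := hdisj B (mem_coe.1 hB)
    have hAB' : A ∪ K = B ∪ K := hAB
    rw [← h1, ← h2, hAB']

end Grow

/-- The number of sets with more than `31 n / 32` elements. -/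
theorem card_large (V : Type u) [Fintype V] (hn : 0 < Fintype.card V) :
    ((univ.filter fun U : Finset V =>
      32 * (Fintype.card V - U.card) < Fintype.card V).card : ℝ) ^ 4 ≤ 2 ^ Fintype.card V := by
  set n := Fintype.card V with hnV
  set B := univ.filter fun U : Finset V => 32 * (n - U.card) < n with hB
  set E := (n - 1) / 32 with hE
  have h1 : ∑ U : Finset V, ((1 : ℝ) / 16) ^ (n - U.card) = (17 / 16) ^ n := by
    have h := Finset.sum_pow_mul_eq_add_pow (1 : ℝ) (1 / 16) (univ : Finset V)
    rw [powerset_univ, card_univ] at h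
    rw [show (17 : ℝ) / 16 = 1 + 1 / 16 by norm_num, ← h]
    apply sum_congr rfl
    intro U _
    rw [one_pow, one_mul]
  have h2 : (B.card : ℝ) * (1 / 16) ^ E ≤ (17 / 16) ^ n := by
    rw [← h1, ← nsmul_eq_mul]
    calc B.card • ((1 : ℝ) / 16) ^ E ≤ ∑ U ∈ B, ((1 : ℝ) / 16) ^ (n - U.card) := by
          apply card_nsmul_le_sum
          intro U hU
          rw [hB, mem_filter] at hU
          apply pow_le_pow_of_le_one (by norm_num) (by norm_num)
          omega
      _ ≤ ∑ U : Finset V, ((1 : ℝ) / 16) ^ (n - U.card) := by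
          apply sum_le_sum_of_subset_of_nonneg (subset_univ _)
          intro U _ _
          positivity
  have h3 : (B.card : ℝ) ≤ 16 ^ E * (17 / 16) ^ n := by
    have h4 : (0 : ℝ) < 16 ^ E := by positivity
    rw [one_div, inv_pow] at h2
    have h5 := mul_le_mul_of_nonneg_left h2 h4.le
    rw [mul_comm (B.card : ℝ), ← mul_assoc, mul_inv_cancel₀ h4.ne', one_mul] at h5
    exact h5
  have h4 : ((B.card : ℝ) ^ 4) ^ 2 ≤ (2 ^ n) ^ 2 := by
    calc ((B.card : ℝ) ^ 4) ^ 2 = (B.card : ℝ) ^ 8 := by rw [← pow_mul]
      _ ≤ (16 ^ E * (17 / 16) ^ n) ^ 8 := pow_le_pow_left₀ (Nat.cast_nonneg _) h3 8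
      _ = 2 ^ (32 * E) * ((17 / 16) ^ 8) ^ n := by
          rw [mul_pow, ← pow_mul, ← pow_mul, ← pow_mul]
          congr 1
          · rw [show (16 : ℝ) = 2 ^ 4 by norm_num, ← pow_mul]
            congr 1
            ring
          · congr 1
            ring
      _ ≤ 2 ^ n * 2 ^ n := by
          apply mul_le_mul
          · apply pow_le_pow_right₀ (by norm_num)
            omega
          · apply pow_le_pow_left₀ (by norm_num)
            norm_num
          · positivity
          · positivity
      _ = (2 ^ n) ^ 2 := by ring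
  exact le_of_sq_le_sq h4 (by positivity)

/-- **Main result.** Every finite connected graph of minimum degree at least three has density
`D(G) ≤ 63 / 64`. -/
theorem result (V : Type u) [Fintype V] (G : SimpleGraph V) (hG : G.Connected)
    (hdeg : ∀ v : V, 3 ≤ (G.neighborSet v).ncard) : density G ≤ 63 / 64 := by
  have hdeg' : ∀ v, 3 ≤ (G.neighborFinset v).card := by
    intro v
    rw [SimpleGraph.neighborFinset, ← Set.ncard_eq_toFinset_card']
    exact hdeg v
  obtain ⟨v⟩ := hG.nonempty
  set n := Fintype.card V with hn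
  have hn0 : 0 < n := Fintype.card_pos_iff.2 ⟨v⟩
  obtain ⟨l, hl, hN⟩ := card_connectedSets hG hdeg'
  set N := (connectedSets G).card with hNdef
  set B := univ.filter fun U : Finset V => 32 * (n - U.card) < n with hB
  have hb : (B.card : ℝ) ^ 4 ≤ 2 ^ n := card_large V hn0
  have hNB : 2 * B.card ≤ N := by
    have h1 : (2 * B.card) ^ 4 ≤ N ^ 4 := by
      have h2 : B.card ^ 4 ≤ 2 ^ n := by exact_mod_cast hb
      calc (2 * B.card) ^ 4 = 16 * B.card ^ 4 := by ring
        _ ≤ 16 * 2 ^ n := Nat.mul_le_mul_left _ h2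
        _ = 2 ^ (n + 4) := by ring
        _ ≤ 2 ^ (4 * l) := Nat.pow_le_pow_right (by norm_num) (by omega)
        _ = (2 ^ l) ^ 4 := by rw [← pow_mul, mul_comm]
        _ ≤ N ^ 4 := Nat.pow_le_pow_left hN 4
    exact (Nat.pow_le_pow_iff_left (by norm_num)).1 h1
  have hNpos : 0 < N := lt_of_lt_of_le (by positivity) hN
  have hsum : ∑ U ∈ connectedSets G, (U.card : ℝ) ≤ 63 / 64 * (N * n) := by
    have h1 : ∀ U ∈ connectedSets G, (U.card : ℝ) ≤
        31 / 32 * n + (if U ∈ B then (n : ℝ) / 32 else 0) := by
      intro U _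
      have hUn : U.card ≤ n := card_le_univ _
      by_cases hU : U ∈ B
      · rw [if_pos hU]
        have : (U.card : ℝ) ≤ n := by exact_mod_cast hUn
        linarith
      · rw [if_neg hU]
        rw [hB, mem_filter] at hU
        have h2 : n ≤ 32 * (n - U.card) := by
          by_contra h
          exact hU ⟨mem_univ _, by omega⟩
        have h3 : 32 * U.card ≤ 31 * n := by omega
        have h4 : (32 : ℝ) * U.card ≤ 31 * n := by exact_mod_cast h3
        linarith
    have h2 : ∑ U ∈ connectedSets G, (if U ∈ B then (n : ℝ) / 32 else 0) ≤ B.card * (n / 32) := by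
      rw [← sum_filter, sum_const, nsmul_eq_mul]
      apply mul_le_mul_of_nonneg_right _ (by positivity)
      have : ((connectedSets G).filter (fun U => U ∈ B)).card ≤ B.card :=
        card_le_card (fun U hU => (mem_filter.1 hU).2)
      exact_mod_cast this
    have h3 : (2 : ℝ) * B.card ≤ N := by exact_mod_cast hNB
    calc ∑ U ∈ connectedSets G, (U.card : ℝ)
        ≤ ∑ U ∈ connectedSets G, (31 / 32 * n + (if U ∈ B then (n : ℝ) / 32 else 0)) :=
          sum_le_sum h1
      _ = N * (31 / 32 * n) + ∑ U ∈ connectedSets G, (if U ∈ B then (n : ℝ) / 32 else 0) := by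
          rw [sum_add_distrib, sum_const, nsmul_eq_mul]
      _ ≤ N * (31 / 32 * n) + B.card * (n / 32) := by linarith
      _ ≤ 63 / 64 * (N * n) := by
          have h4 : (0 : ℝ) ≤ n := Nat.cast_nonneg n
          nlinarith [mul_nonneg h4 (by linarith : (0 : ℝ) ≤ N - 2 * B.card)]
  have hNR : (0 : ℝ) < N := by exact_mod_cast hNpos
  have hnR : (0 : ℝ) < n := by exact_mod_cast hn0
  unfold density
  rw [div_div, div_le_iff₀ (by positivity)]
  exact hsum

end Pool.Agent.Results.MP_345bc6_co.DensityBound
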