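import Pool.Agent.D0H4.Holes.Main

/-!
# A `2`-design whose spectrum of minimal defining set sizes has a hole

The `2`-`(7,3,4)` design consisting of the `28` triples of `{0, …, 6}` that are not lines of the
Fano plane has spectrum `{7, 8, 9, 10, 13}`; the sizes `11` and `12` are missing.

The definitions `IsDesign`, `IsDefiningSet`, `IsMinimalDefiningSet`, `Spec`, `HasHole` are in
`Pool.Agent.D0H4.Holes.Defs`.

Proof: the complement (among all triples) of a `2`-`(7,3,4)` design is a `2`-`(7,3,1)` design, and
an exact-cover search shows that there are exactly `30` of those. So the defining sets of our design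
are the sets of non-lines that meet the other `29` Fano planes, and a branching search finds the
sizes of the minimal ones.
-/

set_option autoImplicit false

namespace Pool.Agent.Results.MP_13ec72_co.SpectrumHole

open Pool.Agent.D0H4.Holes

/-- The seven lines of the Fano plane on the points `0, …, 6`. -/
def fanoLines : Finset (Finset (Fin 7)) :=
  {{0, 1, 2}, {0, 3, 4}, {0, 5, 6}, {1, 3, 5}, {1, 4, 6}, {2, 3, 6}, {2, 4, 5}}

/-- The `28` triples that are not lines of the Fano plane. -/
def D : Finset (Finset (Fin 7)) :=
  (Finset.powersetCard 3 (Finset.univ : Finset (Fin 7))) \ fanoLines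

theorem D_eq : D = fam fano := by
  decide +kernel

/-- The design `D` of the non-lines of the Fano plane is a simple `2`-`(7,3,4)` design, the sizes
of its minimal defining sets are exactly `7, 8, 9, 10, 13`, and so its spectrum has a hole. -/
theorem result :
    IsDesign 2 7 3 4 D ∧ Spec 2 7 3 4 D = {7, 8, 9, 10, 13} ∧ HasHole (Spec 2 7 3 4 D) := by
  rw [D_eq, spec_eq]
  refine ⟨fam_isDesign (by decide +kernel), rfl, 10, by simp, 13, by simp, 11, by norm_num,
    by norm_num, by simp⟩

end Pool.Agent.Results.MP_13ec72_co.SpectrumHole
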