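import Mathlib

/-!
# Independent domination versus weak domination in trees

For every tree `T`, `i(T) ≤ γ_W(T)`. More generally `i(T) ≤ |D|` for every dominating set `D` that
contains all leaves of `T`.

Proof. Root `T` at any vertex. Let `W` be the set of vertices `v` such that `v` or a child of `v`
is in `D`, and choose `I ⊆ W` greedily from the root: `v ∈ I` if and only if `v ∈ W` and the parent
of `v` is not in `I`. Then `I` is an independent dominating set, and `|I| ≤ |D|`: map `v ∈ I` to
itself if `v ∈ D`, and to a child of `v` in `D` otherwise.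
-/

set_option autoImplicit false

universe u

namespace Pool.Agent.Results.MP_2d208d_co.WeakDomination

variable {V : Type u}

/-- `D` is a dominating set: every vertex outside `D` has a neighbour in `D`. -/
def IsDominating (G : SimpleGraph V) (D : Finset V) : Prop :=
  ∀ v, v ∉ D → ∃ u ∈ D, G.Adj u v

/-- `D` is independent: no two vertices of `D` are adjacent. -/
def IsIndependent (G : SimpleGraph V) (D : Finset V) : Prop :=
  ∀ u ∈ D, ∀ v ∈ D, ¬ G.Adj u v

/-- `D` is a weak dominating set: every vertex `v` outside `D` is adjacent to some `u ∈ D` with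
`deg u ≤ deg v`. -/
def IsWeakDominating (G : SimpleGraph V) [G.LocallyFinite] (D : Finset V) : Prop :=
  ∀ v, v ∉ D → ∃ u ∈ D, G.Adj u v ∧ G.degree u ≤ G.degree v

/-- The independent domination number `i(G)`. -/
noncomputable def indepDomNumber (G : SimpleGraph V) : ℕ :=
  sInf {k | ∃ D : Finset V, IsDominating G D ∧ IsIndependent G D ∧ D.card = k}

/-- The weak domination number `γ_W(G)`. -/
noncomputable def weakDomNumber (G : SimpleGraph V) [G.LocallyFinite] : ℕ :=
  sInf {k | ∃ D : Finset V, IsWeakDominating G D ∧ D.card = k}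

/-- In a tree a vertex has at most one neighbour that is nearer to the root. -/
theorem parent_unique {G : SimpleGraph V} (hG : G.IsTree) (r : V) {u u' v : V}
    (h : G.Adj u v) (h' : G.Adj u' v) (hd : G.dist r u + 1 = G.dist r v)
    (hd' : G.dist r u' + 1 = G.dist r v) : u = u' := by
  classical
  obtain ⟨p, hp, hpl⟩ := hG.connected.exists_path_of_dist r u
  obtain ⟨p', hp', hpl'⟩ := hG.connected.exists_path_of_dist r u'
  have key : ∀ {w : V} (q : G.Walk r w), q.length + 1 = G.dist r v → v ∉ q.support := by
    intro w q hq hv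
    have h1 : (q.takeUntil v hv).length ≤ q.length := q.length_takeUntil_le_length hv
    have h2 := SimpleGraph.dist_le (q.takeUntil v hv)
    omega
  have hc : (p.concat h).IsPath := hp.concat (key p (by omega)) h
  have hc' : (p'.concat h').IsPath := hp'.concat (key p' (by omega)) h'
  have := (hG.existsUnique_path r v).unique hc hc'
  have h3 : (p.concat h).penultimate = (p'.concat h').penultimate := by rw [this]
  simpa using h3

/-- The greedy set, level by level. -/
def Gr (G : SimpleGraph V) (r : V) (W : V → Prop) : ℕ → V → Prop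
  | 0, v => W v
  | n + 1, v => W v ∧ ∀ u, G.Adj u v → G.dist r u = n → ¬ Gr G r W n u

theorem gr_iff (G : SimpleGraph V) (r : V) (W : V → Prop) (v : V) :
    Gr G r W (G.dist r v) v ↔
      W v ∧ ∀ u, G.Adj u v → G.dist r u + 1 = G.dist r v → ¬ Gr G r W (G.dist r u) u := by
  cases hn : G.dist r v with
  | zero =>
    constructor
    · intro h
      exact ⟨h, fun u _ hu => by omega⟩
    · intro h
      exact h.1
  | succ n =>
    constructor
    · rintro ⟨h1, h2⟩
      refine ⟨h1, fun u hu hd => ?_⟩
      have : G.dist r u = n := by omega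
      rw [this]
      exact h2 u hu this
    · rintro ⟨h1, h2⟩
      refine ⟨h1, fun u hu hd => ?_⟩
      have := h2 u hu (by omega)
      rwa [hd] at this

/-- The main construction. -/
theorem exists_indep [Fintype V] [DecidableEq V] {G : SimpleGraph V} [DecidableRel G.Adj]
    (hG : G.IsTree) (D : Finset V)
    (hD : ∀ v, v ∉ D → ∃ u ∈ D, G.Adj u v ∧ (2 ≤ G.degree v ∨ G.degree u ≤ 1)) :
    ∃ I : Finset V, IsDominating G I ∧ IsIndependent G I ∧ I.card ≤ D.card := by
  classical
  obtain ⟨r⟩ := hG.connected.nonempty
  set W : V → Prop := fun v => v ∈ D ∨ ∃ c ∈ D, G.Adj v c ∧ G.dist r c = G.dist r v + 1 with hW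
  set I : Finset V := Finset.univ.filter (fun v => Gr G r W (G.dist r v) v) with hI
  have mem_I : ∀ v, v ∈ I ↔ W v ∧ ∀ u, G.Adj u v → G.dist r u + 1 = G.dist r v → u ∉ I := by
    intro v
    rw [hI, Finset.mem_filter, gr_iff]
    simp
  have hdist : ∀ {v w : V}, G.Adj v w →
      G.dist r v = G.dist r w + 1 ∨ G.dist r w = G.dist r v + 1 :=
    fun h => hG.dist_eq_dist_add_one_of_adj r h
  have hI_ind : IsIndependent G I := by
    intro u hu v hv huv
    rcases hdist huv with h | h
    · exact ((mem_I u).1 hu).2 v huv.symm h.symm hv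
    · exact ((mem_I v).1 hv).2 u huv h.symm hu
  -- a vertex of `W` outside `I` has its parent in `I`
  have par_mem : ∀ v, W v → v ∉ I → ∃ u ∈ I, G.Adj u v ∧ G.dist r u + 1 = G.dist r v := by
    intro v hv hvI
    rw [mem_I] at hvI
    push Not at hvI
    obtain ⟨u, h1, h2, h3⟩ := hvI hv
    exact ⟨u, h3, h1, h2⟩
  refine ⟨I, ?_, hI_ind, ?_⟩
  · intro v hv
    by_contra hcon
    push Not at hcon
    have hWv : ¬ W v := by
      intro h
      obtain ⟨u, hu, huv, _⟩ := par_mem v h hv
      exact hcon u hu huv
    have hvD : v ∉ D := fun h => hWv (Or.inl h)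
    obtain ⟨u, huD, huv, hdeg⟩ := hD v hvD
    have hup : G.dist r u + 1 = G.dist r v := by
      rcases hdist huv with h | h
      · exact absurd (Or.inr ⟨u, huD, huv.symm, h⟩) hWv
      · exact h.symm
    have huI : u ∉ I := fun h => hcon u h huv
    obtain ⟨u', hu'I, hu'u, hu'd⟩ := par_mem u (Or.inl huD) huI
    have hdegu : 2 ≤ G.degree u := by
      rw [← SimpleGraph.card_neighborFinset_eq_degree]
      have hsub : ({u', v} : Finset V) ⊆ G.neighborFinset u := by
        intro x hx
        rw [Finset.mem_insert, Finset.mem_singleton] at hx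
        rw [SimpleGraph.mem_neighborFinset]
        rcases hx with rfl | rfl
        · exact hu'u.symm
        · exact huv
      have hne : u' ≠ v := by
        rintro rfl
        omega
      calc 2 = ({u', v} : Finset V).card := (Finset.card_pair hne).symm
        _ ≤ _ := Finset.card_le_card hsub
    have hdegv : 2 ≤ G.degree v := by
      rcases hdeg with h | h
      · exact h
      · omega
    -- a child of `v`
    obtain ⟨c, hcv, hcu⟩ : ∃ c, G.Adj v c ∧ c ≠ u := by
      by_contra hno
      push Not at hno
      have hsub : G.neighborFinset v ⊆ {u} := by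
        intro x hx
        rw [SimpleGraph.mem_neighborFinset] at hx
        rw [Finset.mem_singleton]
        exact hno x hx
      have := Finset.card_le_card hsub
      rw [SimpleGraph.card_neighborFinset_eq_degree, Finset.card_singleton] at this
      omega
    have hcd : G.dist r c = G.dist r v + 1 := by
      rcases hdist hcv with h | h
      · exact absurd (parent_unique hG r hcv.symm huv h.symm hup) hcu
      · exact h
    have hcD : c ∉ D := fun h => hWv (Or.inr ⟨c, h, hcv, hcd⟩)
    obtain ⟨w, hwD, hwc, _⟩ := hD c hcD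
    have hwv : w ≠ v := by
      rintro rfl
      exact hvD hwD
    have hwd : G.dist r w = G.dist r c + 1 := by
      rcases hdist hwc with h | h
      · exact h
      · exact absurd (parent_unique hG r hwc hcv h.symm hcd.symm) hwv
    have hWc : W c := Or.inr ⟨w, hwD, hwc.symm, hwd⟩
    have hcI : c ∉ I := fun h => hcon c h hcv.symm
    obtain ⟨v', hv'I, hv'c, hv'd⟩ := par_mem c hWc hcI
    have : v' = v := parent_unique hG r hv'c hcv hv'd hcd.symm
    rw [this] at hv'I
    exact hv hv'I
  · -- the injection
    have hex : ∀ v ∈ I, v ∉ D → ∃ c ∈ D, G.Adj v c ∧ G.dist r c = G.dist r v + 1 := by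
      intro v hv hvD
      rcases ((mem_I v).1 hv).1 with h | h
      · exact absurd h hvD
      · exact h
    choose! f hf using hex
    refine Finset.card_le_card_of_injOn (fun v => if v ∈ D then v else f v) ?_ ?_
    · intro v hv
      by_cases h : v ∈ D
      · simp [h]
      · simpa [h] using (hf v hv h).1
    · intro v hv w hw hvw
      have hv' : v ∈ I := hv
      have hw' : w ∈ I := hw
      simp only at hvw
      by_cases h1 : v ∈ D <;> by_cases h2 : w ∈ D
      · simpa [h1, h2] using hvw
      · simp only [h1, h2, if_true, if_false] at hvw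
        obtain ⟨_, h4, _⟩ := hf w hw' h2
        rw [← hvw] at h4
        exact absurd h4 (hI_ind w hw' v hv')
      · simp only [h1, h2, if_true, if_false] at hvw
        obtain ⟨_, h4, _⟩ := hf v hv' h1
        rw [hvw] at h4
        exact absurd h4 (hI_ind v hv' w hw')
      · simp only [h1, h2, if_false] at hvw
        obtain ⟨_, h4, h5⟩ := hf v hv' h1
        obtain ⟨_, h6, h7⟩ := hf w hw' h2
        rw [← hvw] at h6 h7
        exact parent_unique hG r h4 h6 h5.symm h7.symm

theorem indepDomNumber_le [Fintype V] [DecidableEq V] {G : SimpleGraph V} [DecidableRel G.Adj]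
    (hG : G.IsTree) (D : Finset V)
    (hD : ∀ v, v ∉ D → ∃ u ∈ D, G.Adj u v ∧ (2 ≤ G.degree v ∨ G.degree u ≤ 1)) :
    indepDomNumber G ≤ D.card := by
  obtain ⟨I, h1, h2, h3⟩ := exists_indep hG D hD
  exact le_trans (Nat.sInf_le ⟨I, h1, h2, rfl⟩) h3

/-- The conjecture of Sampathkumar and Pushpa Latha: `i(T) ≤ γ_W(T)` for every tree `T`; moreover
`i(T) ≤ |D|` for every dominating set `D` of `T` that contains all leaves of `T`. -/
theorem result :
    ∀ (V : Type u) [Fintype V] [DecidableEq V] (T : SimpleGraph V) [DecidableRel T.Adj],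
      T.IsTree → indepDomNumber T ≤ weakDomNumber T ∧
        ∀ D : Finset V, IsDominating T D → (∀ v, T.degree v = 1 → v ∈ D) →
          indepDomNumber T ≤ D.card := by
  intro V _ _ T _ hT
  refine ⟨?_, ?_⟩
  · have hne : {k | ∃ D : Finset V, IsWeakDominating T D ∧ D.card = k}.Nonempty :=
      ⟨_, Finset.univ, fun v hv => absurd (Finset.mem_univ v) hv, rfl⟩
    obtain ⟨D, hD, hcard⟩ := Nat.sInf_mem hne
    unfold weakDomNumber
    rw [← hcard]
    apply indepDomNumber_le hT
    intro v hv
    obtain ⟨u, hu, huv, hdeg⟩ := hD v hv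
    refine ⟨u, hu, huv, ?_⟩
    omega
  · intro D hD hleaf
    apply indepDomNumber_le hT
    intro v hv
    obtain ⟨u, hu, huv⟩ := hD v hv
    refine ⟨u, hu, huv, Or.inl ?_⟩
    have h1 : T.degree v ≠ 1 := fun h => hv (hleaf v h)
    have h0 : 0 < T.degree v := (T.degree_pos_iff_exists_adj v).2 ⟨u, huv.symm⟩
    omega

end Pool.Agent.Results.MP_2d208d_co.WeakDomination
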